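import Mathlib

open Filter

namespace Pool.Agent.Results.MP_8f8c07_co.ExistsMorphism

/-- The two-letter alphabet. -/
inductive Letter : Type
  | a : Letter
  | b : Letter
  deriving DecidableEq

open Letter

/-- A map on finite words which is a morphism for concatenation. -/
def IsMorphism (h : List Letter → List Letter) : Prop :=
  ∀ u v : List Letter, h (u ++ v) = h u ++ h v

/-- `v` is an abelian `k`-power: a concatenation of `k` nonempty words which are anagrams of one
another. -/
def IsAbelianPower (k : ℕ) (v : List Letter) : Prop :=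
  v ≠ [] ∧ ∃ B : List (List Letter), B.length = k ∧ (∀ x ∈ B, x ≠ []) ∧
    (∀ x ∈ B, ∀ y ∈ B, x.Perm y) ∧ v = B.flatten

/-- The finite word `w` has no factor which is an abelian `k`-power. -/
def AbelianPowerFree (k : ℕ) (w : List Letter) : Prop :=
  ∀ v : List Letter, v <:+: w → ¬ IsAbelianPower k v

/-- The map `h` sends abelian `k`-power free words to abelian `k`-power free words. -/
def AbelianPowerFreeMorphism (k : ℕ) (h : List Letter → List Letter) : Prop :=
  ∀ w : List Letter, AbelianPowerFree k w → AbelianPowerFree k (h w)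

/-- The finite word `v` occurs in the infinite word `w` at position `i`. -/
def OccursAt (v : List Letter) (w : ℕ → Letter) (i : ℕ) : Prop :=
  ∀ j : ℕ, ∀ hj : j < v.length, v[j] = w (i + j)

/-- The finite word `v` is a factor of the infinite word `w`. -/
def IsFactor (v : List Letter) (w : ℕ → Letter) : Prop := ∃ i : ℕ, OccursAt v w i

/-- `h` has a fixed point starting with `a`, and that fixed point is the infinite word `w`:
`h(a) = a u` with `u` nonempty, the lengths of `h^n(a)` tend to infinity, and each `h^n(a)` is a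
prefix of `w`. -/
def IsFixedPointFromA (h : List Letter → List Letter) (w : ℕ → Letter) : Prop :=
  (∃ u : List Letter, u ≠ [] ∧ h [a] = a :: u) ∧
  Tendsto (fun n : ℕ => (h^[n] [a]).length) atTop atTop ∧
  ∀ n : ℕ, OccursAt (h^[n] [a]) w 0

/-! ### The morphism `a ↦ aaaba`, `b ↦ bab` -/

/-- Images of letters. -/
def hc : Letter → List Letter
  | a => [a, a, a, b, a]
  | b => [b, a, b]

/-- The morphism. -/
def H (w : List Letter) : List Letter := w.flatMap hc

lemma H_nil : H [] = [] := rfl
lemma H_cons (c : Letter) (w : List Letter) : H (c :: w) = hc c ++ H w := by simp [H]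
lemma H_append (u v : List Letter) : H (u ++ v) = H u ++ H v := by simp [H]

lemma hc_ne (c : Letter) : hc c ≠ [] := by cases c <;> simp [hc]
lemma hc_len (c : Letter) : 3 ≤ (hc c).length ∧ (hc c).length ≤ 5 := by cases c <;> simp [hc]

lemma H_len (w : List Letter) : 3 * w.length ≤ (H w).length := by
  induction w with
  | nil => simp
  | cons c w ih =>
    rw [H_cons, List.length_append, List.length_cons]
    have := (hc_len c).1
    omega

lemma H_eq_nil {w : List Letter} (h : H w = []) : w = [] := by
  have := H_len w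
  rw [h] at this
  simp at this
  exact this

/-- Weights of letters modulo 7. -/
def wt : Letter → ZMod 7
  | a => 1
  | b => 3

/-- Weight of a word modulo 7. -/
def F (w : List Letter) : ZMod 7 := (w.map wt).sum

lemma F_nil : F [] = 0 := rfl
lemma F_cons (c : Letter) (w : List Letter) : F (c :: w) = wt c + F w := by simp [F]
lemma F_append (u v : List Letter) : F (u ++ v) = F u + F v := by simp [F]
lemma F_hc (c : Letter) : F (hc c) = 0 := by cases c <;> decide
lemma F_H (w : List Letter) : F (H w) = 0 := by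
  induction w with
  | nil => rfl
  | cons c w ih => rw [H_cons, F_append, F_hc, ih]; rfl
lemma F_perm {u v : List Letter} (h : u.Perm v) : F u = F v := (h.map wt).sum_eq

/-- Decomposition of a prefix of an image. -/
lemma split_H : ∀ (w p s : List Letter), H w = p ++ s →
    (∃ w1 w2, w = w1 ++ w2 ∧ p = H w1 ∧ s = H w2) ∨
    (∃ w1 c w2 v t, w = w1 ++ c :: w2 ∧ v ≠ [] ∧ t ≠ [] ∧ v ++ t = hc c ∧ p = H w1 ++ v ∧
      s = t ++ H w2) := by
  intro w
  induction w with
  | nil =>
    intro p s h
    left
    have h' : p ++ s = [] := by rw [← h]; rfl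
    obtain ⟨hp, hs⟩ := List.append_eq_nil_iff.mp h'
    exact ⟨[], [], rfl, by rw [hp]; rfl, by rw [hs]; rfl⟩
  | cons c w ih =>
    intro p s h
    rw [H_cons] at h
    rcases List.append_eq_append_iff.mp h with ⟨t, ht1, ht2⟩ | ⟨t, ht1, ht2⟩
    · -- p = hc c ++ t, H w = t ++ s
      rcases ih t s ht2 with ⟨w1, w2, e1, e2, e3⟩ | ⟨w1, d, w2, v, t', e1, e2, e3, e4, e5, e6⟩
      · left
        refine ⟨c :: w1, w2, by rw [e1]; rfl, ?_, e3⟩
        rw [ht1, H_cons, e2]
      · right
        refine ⟨c :: w1, d, w2, v, t', by rw [e1]; rfl, e2, e3, e4, ?_, e6⟩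
        rw [ht1, H_cons, e5, List.append_assoc]
    · -- hc c = p ++ t, s = t ++ H w
      by_cases hp : p = []
      · left
        refine ⟨[], c :: w, rfl, by rw [hp]; rfl, ?_⟩
        rw [ht2, H_cons, ht1, hp]; simp
      · by_cases ht : t = []
        · left
          refine ⟨[c], w, rfl, ?_, ?_⟩
          · rw [H_cons, H_nil, List.append_nil, ht1, ht, List.append_nil]
          · rw [ht2, ht]; rfl
        · right
          exact ⟨[], c, w, p, t, rfl, hp, ht, ht1.symm, by rw [H_nil]; rfl, ht2⟩

/-- The proper nonempty prefixes of the images of letters. -/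
lemma pref_cases {c : Letter} {v t : List Letter} (hv : v ≠ []) (ht : t ≠ []) (h : v ++ t = hc c) :
    (c = a ∧ v = [a] ∧ t = [a, a, b, a]) ∨ (c = a ∧ v = [a, a] ∧ t = [a, b, a]) ∨
    (c = a ∧ v = [a, a, a] ∧ t = [b, a]) ∨ (c = a ∧ v = [a, a, a, b] ∧ t = [a]) ∨
    (c = b ∧ v = [b] ∧ t = [a, b]) ∨ (c = b ∧ v = [b, a] ∧ t = [b]) := by
  cases c with
  | a =>
    rcases v with _ | ⟨v1, _ | ⟨v2, _ | ⟨v3, _ | ⟨v4, _ | ⟨v5, v⟩⟩⟩⟩⟩
    · exact absurd rfl hv
    all_goals simp [hc] at h
    · obtain ⟨rfl, rfl⟩ := h; simp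
    · obtain ⟨rfl, rfl, rfl⟩ := h; simp
    · obtain ⟨rfl, rfl, rfl, rfl⟩ := h; simp
    · obtain ⟨rfl, rfl, rfl, rfl, rfl⟩ := h; simp
    · exact absurd h.2.2.2.2.2.2 ht
  | b =>
    rcases v with _ | ⟨v1, _ | ⟨v2, _ | ⟨v3, v⟩⟩⟩
    · exact absurd rfl hv
    all_goals simp [hc] at h
    · obtain ⟨rfl, rfl⟩ := h; simp
    · obtain ⟨rfl, rfl, rfl⟩ := h; simp
    · exact absurd h.2.2.2.2 ht

/-- A prefix with weight `0` of an image is the image of a prefix. -/
lemma cut {w p s : List Letter} (h : H w = p ++ s) (hF : F p = 0) :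
    ∃ w1 w2, w = w1 ++ w2 ∧ p = H w1 ∧ s = H w2 := by
  rcases split_H w p s h with h1 | ⟨w1, c, w2, v, t, e1, e2, e3, e4, e5, e6⟩
  · exact h1
  · exfalso
    rw [e5, F_append, F_H, zero_add] at hF
    rcases pref_cases e2 e3 e4 with ⟨_, rfl, _⟩ | ⟨_, rfl, _⟩ | ⟨_, rfl, _⟩ | ⟨_, rfl, _⟩ |
      ⟨_, rfl, _⟩ | ⟨_, rfl, _⟩ <;> revert hF <;> decide

/-- No prefix of an image has weight `5`. -/
lemma F_ne_five {w p s : List Letter} (h : H w = p ++ s) : F p ≠ 5 := by
  rcases split_H w p s h with ⟨w1, w2, e1, e2, e3⟩ | ⟨w1, c, w2, v, t, e1, e2, e3, e4, e5, e6⟩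
  · rw [e2, F_H]; decide
  · rw [e5, F_append, F_H, zero_add]
    rcases pref_cases e2 e3 e4 with ⟨_, rfl, _⟩ | ⟨_, rfl, _⟩ | ⟨_, rfl, _⟩ | ⟨_, rfl, _⟩ |
      ⟨_, rfl, _⟩ | ⟨_, rfl, _⟩ <;> decide

/-- Number of `a`s as an integer. -/
def ca (w : List Letter) : ℤ := (w.count a : ℤ)
/-- Number of `b`s as an integer. -/
def cb (w : List Letter) : ℤ := (w.count b : ℤ)

lemma ca_append (u v : List Letter) : ca (u ++ v) = ca u + ca v := by simp [ca]
lemma cb_append (u v : List Letter) : cb (u ++ v) = cb u + cb v := by simp [cb]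
lemma ca_nonneg (u : List Letter) : 0 ≤ ca u := by simp [ca]
lemma cb_nonneg (u : List Letter) : 0 ≤ cb u := by simp [cb]

lemma len_eq (u : List Letter) : (u.length : ℤ) = ca u + cb u := by
  induction u with
  | nil => simp [ca, cb]
  | cons c u ih =>
    have h1 : ca (c :: u) = ca [c] + ca u := ca_append [c] u
    have h2 : cb (c :: u) = cb [c] + cb u := cb_append [c] u
    have h3 : ca [c] + cb [c] = 1 := by cases c <;> simp [ca, cb]
    rw [List.length_cons]
    push_cast
    linarith

lemma ca_H (w : List Letter) : ca (H w) = 4 * ca w + cb w := by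
  induction w with
  | nil => simp [H_nil, ca, cb]
  | cons c w ih =>
    have h1 : ca (c :: w) = ca [c] + ca w := ca_append [c] w
    have h2 : cb (c :: w) = cb [c] + cb w := cb_append [c] w
    have h3 : ca (hc c) = 4 * ca [c] + cb [c] := by cases c <;> simp [ca, cb, hc]
    rw [H_cons, ca_append, ih, h1, h2, h3]; ring

lemma cb_H (w : List Letter) : cb (H w) = ca w + 2 * cb w := by
  induction w with
  | nil => simp [H_nil, ca, cb]
  | cons c w ih =>
    have h1 : ca (c :: w) = ca [c] + ca w := ca_append [c] w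
    have h2 : cb (c :: w) = cb [c] + cb w := cb_append [c] w
    have h3 : cb (hc c) = ca [c] + 2 * cb [c] := by cases c <;> simp [ca, cb, hc]
    rw [H_cons, cb_append, ih, h1, h2, h3]; ring

lemma perm_of_counts {u v : List Letter} (h1 : ca u = ca v) (h2 : cb u = cb v) : u.Perm v := by
  rw [List.perm_iff_count]
  intro c
  cases c with
  | a => simpa [ca] using h1
  | b => simpa [cb] using h2

/-- Correction terms. -/
def cor (g : ZMod 7) : ℤ × ℤ :=
  if g = 1 then (1, 0) else if g = 2 then (2, 0) else if g = 3 then (-1, -1) else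
  if g = 6 then (3, 1) else if g = 4 then (1, 1) else (0, 0)

/-- Counts of a prefix of an image, in terms of a prefix of the preimage. -/
lemma prefix_counts {w p s : List Letter} (h : H w = p ++ s) :
    ∃ u u', w = u ++ u' ∧ ca p = ca (H u) + (cor (F p)).1 ∧ cb p = cb (H u) + (cor (F p)).2 := by
  rcases split_H w p s h with ⟨w1, w2, e1, e2, e3⟩ | ⟨w1, c, w2, v, t, e1, e2, e3, e4, e5, e6⟩
  · refine ⟨w1, w2, e1, ?_, ?_⟩ <;> rw [e2, F_H] <;> simp [cor] <;> decide
  · have hF : F p = F v := by rw [e5, F_append, F_H, zero_add]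
    rcases pref_cases e2 e3 e4 with ⟨rfl, rfl, _⟩ | ⟨rfl, rfl, _⟩ | ⟨rfl, rfl, _⟩ |
      ⟨rfl, rfl, _⟩ | ⟨rfl, rfl, _⟩ | ⟨rfl, rfl, _⟩
    · refine ⟨w1, a :: w2, e1, ?_, ?_⟩
      · rw [hF, e5, ca_append]
        have : (cor (F [a])).1 = 1 := by decide
        rw [this]; simp [ca]
      · rw [hF, e5, cb_append]
        have : (cor (F [a])).2 = 0 := by decide
        rw [this]; simp [cb]
    · refine ⟨w1, a :: w2, e1, ?_, ?_⟩
      · rw [hF, e5, ca_append]
        have : (cor (F [a, a])).1 = 2 := by decide
        rw [this]; simp [ca]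
      · rw [hF, e5, cb_append]
        have : (cor (F [a, a])).2 = 0 := by decide
        rw [this]; simp [cb]
    · refine ⟨w1 ++ [a], w2, by rw [e1]; simp, ?_, ?_⟩
      · rw [hF, e5, ca_append, H_append, ca_append]
        have : (cor (F [a, a, a])).1 = -1 := by decide
        rw [this]; simp [ca, H, hc]; ring
      · rw [hF, e5, cb_append, H_append, cb_append]
        have : (cor (F [a, a, a])).2 = -1 := by decide
        rw [this]; simp [cb, H, hc]
    · refine ⟨w1, a :: w2, e1, ?_, ?_⟩
      · rw [hF, e5, ca_append]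
        have : (cor (F [a, a, a, b])).1 = 3 := by decide
        rw [this]; simp [ca]
      · rw [hF, e5, cb_append]
        have : (cor (F [a, a, a, b])).2 = 1 := by decide
        rw [this]; simp [cb]
    · refine ⟨w1 ++ [b], w2, by rw [e1]; simp, ?_, ?_⟩
      · rw [hF, e5, ca_append, H_append, ca_append]
        have : (cor (F [b])).1 = -1 := by decide
        rw [this]; simp [ca, H, hc]
      · rw [hF, e5, cb_append, H_append, cb_append]
        have : (cor (F [b])).2 = -1 := by decide
        rw [this]; simp [cb, H, hc]; ring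
    · refine ⟨w1, b :: w2, e1, ?_, ?_⟩
      · rw [hF, e5, ca_append]
        have : (cor (F [b, a])).1 = 1 := by decide
        rw [this]; simp [ca]
      · rw [hF, e5, cb_append]
        have : (cor (F [b, a])).2 = 1 := by decide
        rw [this]; simp [cb]

/-- Pull back a run of blocks of weight `0` with equal counts. -/
lemma pull_blocks {w : List Letter} {x0 y0 : ℤ} (hpos : 0 < x0 + y0) :
    ∀ (B : List (List Letter)) (p s u u' : List Letter), H w = p ++ (B.flatten ++ s) →
    (∀ X ∈ B, F X = 0 ∧ ca X = x0 ∧ cb X = y0) → w = u ++ u' →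
    ca p = ca (H u) + (cor (F p)).1 → cb p = cb (H u) + (cor (F p)).2 →
    ∃ (Y : List (List Letter)) (r : List Letter), Y.length = B.length ∧ w = u ++ (Y.flatten ++ r) ∧
      ∀ X ∈ Y, ca (H X) = x0 ∧ cb (H X) = y0 := by
  intro B
  induction B with
  | nil =>
    intro p s u u' h hB hw h1 h2
    exact ⟨[], u', rfl, by simpa using hw, by simp⟩
  | cons X B ih =>
    intro p s u u' h hB hw h1 h2
    obtain ⟨hX0, hXa, hXb⟩ := hB X (by simp)
    have h' : H w = (p ++ X) ++ (B.flatten ++ s) := by rw [h]; simp
    obtain ⟨v, v', hv, hva, hvb⟩ := prefix_counts h'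
    have hFp : F (p ++ X) = F p := by rw [F_append, hX0, add_zero]
    rw [hFp] at hva hvb
    rw [ca_append, hXa] at hva
    rw [cb_append, hXb] at hvb
    -- compare the prefixes `u` and `v`
    have hcmp : u ++ u' = v ++ v' := by rw [← hw, ← hv]
    rcases List.append_eq_append_iff.mp hcmp with ⟨t, ht1, ht2⟩ | ⟨t, ht1, ht2⟩
    · -- v = u ++ t
      have hta : ca (H t) = x0 := by
        rw [ht1, H_append, ca_append] at hva; linarith
      have htb : cb (H t) = y0 := by
        rw [ht1, H_append, cb_append] at hvb; linarith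
      have h1' : ca (p ++ X) = ca (H v) + (cor (F (p ++ X))).1 := by
        rw [hFp, ca_append, hXa]; linarith
      have h2' : cb (p ++ X) = cb (H v) + (cor (F (p ++ X))).2 := by
        rw [hFp, cb_append, hXb]; linarith
      obtain ⟨Y, r, hY1, hY2, hY3⟩ := ih (p ++ X) s v v' h'
        (fun Z hZ => hB Z (List.mem_cons_of_mem _ hZ)) hv h1' h2'
      refine ⟨t :: Y, r, by simp [hY1], ?_, ?_⟩
      · rw [hY2, ht1]; simp
      · intro Z hZ
        rcases List.mem_cons.mp hZ with rfl | hZ
        · exact ⟨hta, htb⟩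
        · exact hY3 Z hZ
    · -- u = v ++ t, impossible
      exfalso
      rw [ht1, H_append, ca_append] at h1
      rw [ht1, H_append, cb_append] at h2
      have := ca_nonneg (H t)
      have := cb_nonneg (H t)
      linarith

/-- `H` is abelian `6`-power free. -/
lemma H_free : AbelianPowerFreeMorphism 6 H := by
  intro w hw v hv hpow
  obtain ⟨hvne, B, hBlen, hBne, hBperm, hvB⟩ := hpow
  obtain ⟨p, s, hps⟩ := hv
  -- the six blocks
  obtain ⟨X1, X2, X3, X4, X5, X6, rfl⟩ : ∃ X1 X2 X3 X4 X5 X6, B = [X1, X2, X3, X4, X5, X6] := by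
    rcases B with _ | ⟨X1, _ | ⟨X2, _ | ⟨X3, _ | ⟨X4, _ | ⟨X5, _ | ⟨X6, _ | ⟨X7, B⟩⟩⟩⟩⟩⟩⟩
    all_goals simp at hBlen
    exact ⟨X1, X2, X3, X4, X5, X6, rfl⟩
  have hp : ∀ X ∈ [X1, X2, X3, X4, X5, X6], F X = F X1 ∧ ca X = ca X1 ∧ cb X = cb X1 := by
    intro X hX
    have hpm := hBperm X hX X1 (by simp)
    exact ⟨F_perm hpm, by simp [ca, hpm.count_eq], by simp [cb, hpm.count_eq]⟩
  have hfl : v = X1 ++ X2 ++ X3 ++ X4 ++ X5 ++ X6 := by rw [hvB]; simp
  have hF2 := (hp X2 (by simp)).1
  have hF3 := (hp X3 (by simp)).1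
  have hF4 := (hp X4 (by simp)).1
  have hF5 := (hp X5 (by simp)).1
  have hF6 := (hp X6 (by simp)).1
  have e0 : H w = p ++ (X1 ++ X2 ++ X3 ++ X4 ++ X5 ++ X6 ++ s) := by rw [← hps, hfl]; simp
  have n0 := F_ne_five e0
  have n1 := F_ne_five (p := p ++ X1) (s := X2 ++ X3 ++ X4 ++ X5 ++ X6 ++ s) (by rw [e0]; simp)
  have n2 := F_ne_five (p := p ++ X1 ++ X2) (s := X3 ++ X4 ++ X5 ++ X6 ++ s) (by rw [e0]; simp)
  have n3 := F_ne_five (p := p ++ X1 ++ X2 ++ X3) (s := X4 ++ X5 ++ X6 ++ s) (by rw [e0]; simp)
  have n4 := F_ne_five (p := p ++ X1 ++ X2 ++ X3 ++ X4) (s := X5 ++ X6 ++ s) (by rw [e0]; simp)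
  have n5 := F_ne_five (p := p ++ X1 ++ X2 ++ X3 ++ X4 ++ X5) (s := X6 ++ s) (by rw [e0]; simp)
  have n6 := F_ne_five (p := p ++ X1 ++ X2 ++ X3 ++ X4 ++ X5 ++ X6) (s := s) (by rw [e0]; simp)
  simp only [F_append, hF2, hF3, hF4, hF5, hF6] at n1 n2 n3 n4 n5 n6
  have hg : F X1 = 0 := by
    have key : ∀ t g : ZMod 7, g ≠ 0 → (t = 5 ∨ t + g = 5 ∨ t + g + g = 5 ∨ t + g + g + g = 5 ∨
        t + g + g + g + g = 5 ∨ t + g + g + g + g + g = 5 ∨
        t + g + g + g + g + g + g = 5) := by decide
    by_contra hne
    rcases key (F p) (F X1) hne with h | h | h | h | h | h | h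
    · exact n0 h
    · exact n1 h
    · exact n2 h
    · exact n3 h
    · exact n4 h
    · exact n5 h
    · exact n6 h
  have hX1 : X1 ≠ [] := hBne X1 (by simp)
  have hpos : 0 < ca X1 + cb X1 := by
    rw [← len_eq]
    exact_mod_cast List.length_pos_iff.mpr hX1
  obtain ⟨u, u', hu, hua, hub⟩ := prefix_counts e0
  obtain ⟨Y, r, hY1, hY2, hY3⟩ := pull_blocks (x0 := ca X1) (y0 := cb X1) hpos
    [X1, X2, X3, X4, X5, X6] p s u u' (by rw [e0]; simp)
    (fun X hX => ⟨by rw [(hp X hX).1, hg], (hp X hX).2.1, (hp X hX).2.2⟩) hu hua hub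
  have hcount : ∀ X ∈ Y, ∀ Z ∈ Y, ca X = ca Z ∧ cb X = cb Z := by
    intro X hX Z hZ
    have h1 := hY3 X hX
    have h2 := hY3 Z hZ
    rw [ca_H, cb_H] at h1 h2
    constructor <;> linarith [h1.1, h1.2, h2.1, h2.2]
  have hne : ∀ X ∈ Y, X ≠ [] := by
    rintro X hX rfl
    have h1 := hY3 [] hX
    have h2 : ca (H []) = 0 := by simp [H_nil, ca]
    have h3 : cb (H []) = 0 := by simp [H_nil, cb]
    rw [h2, h3] at h1
    linarith [h1.1, h1.2]
  refine hw Y.flatten ⟨u, r, by rw [hY2]; simp⟩ ⟨?_, Y, by rw [hY1]; rfl, hne, ?_, rfl⟩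
  · intro hfl0
    rcases Y with _ | ⟨Z, Y⟩
    · simp at hY1
    · simp only [List.flatten_cons, List.append_eq_nil_iff] at hfl0
      exact hne Z (by simp) hfl0.1
  · intro X hX Z hZ
    exact perm_of_counts (hcount X hX Z hZ).1 (hcount X hX Z hZ).2

/-! ### The fixed point is 5-power free and avoids `bb` -/

lemma hc_inj {c d : Letter} (h : hc c = hc d) : c = d := by
  cases c <;> cases d <;> simp [hc] at h ⊢

lemma H_inj : ∀ {u v : List Letter}, H u = H v → u = v := by
  intro u
  induction u with
  | nil => intro v h; exact (H_eq_nil (by rw [← h]; rfl)).symm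
  | cons c u ih =>
    intro v h
    cases v with
    | nil => exact H_eq_nil (by rw [h]; rfl)
    | cons d v =>
      rw [H_cons, H_cons] at h
      have hcd : c = d := by
        cases c <;> cases d <;> simp [hc] at h ⊢
      subst hcd
      rw [ih (List.append_cancel_left h)]

/-- The letter `d` is determined by the first letter of its image. -/
lemma head_det {c d : Letter} {z1 y s r : List Letter} (hz : z1 ≠ []) (h1 : hc c = z1 ++ y)
    (h2 : hc d ++ r = z1 ++ s) : d = c := by
  rcases z1 with _ | ⟨e, z1⟩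
  · exact absurd rfl hz
  · cases c <;> cases d <;> simp [hc] at h1 h2 ⊢
    · rw [← h2.1] at h1; exact absurd h1.1 (by decide)
    · rw [← h2.1] at h1; exact absurd h1.1 (by decide)

/-- Near every position there is a cut. -/
lemma near_cut {w p s : List Letter} (h : H w = p ++ s) :
    ∃ j, j ≤ 4 ∧ F (p ++ s.take j) = 0 := by
  rcases split_H w p s h with ⟨w1, w2, e1, e2, e3⟩ | ⟨w1, c, w2, v, t, e1, e2, e3, e4, e5, e6⟩
  · exact ⟨0, by norm_num, by rw [e2]; simp [F_H]⟩
  · refine ⟨t.length, ?_, ?_⟩
    · have h1 := congrArg List.length e4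
      have h2 := (hc_len c).2
      have h3 : 0 < v.length := List.length_pos_iff.mpr e2
      rw [List.length_append] at h1
      omega
    · rw [e6, e5]
      have : (t ++ H w2).take t.length = t := by simp
      rw [this, List.append_assoc, e4, F_append, F_H, F_hc, zero_add]

/-- Five-fold power. -/
def pow5 (u : List Letter) : List Letter := u ++ (u ++ (u ++ (u ++ u)))

/-- Pull back a fifth power whose base has weight `0`. -/
lemma pull5 {w p u s : List Letter} (h : H w = p ++ (pow5 u ++ s)) (hu : u ≠ []) (hF : F u = 0) :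
    ∃ x : List Letter, x ≠ [] ∧ (H x).length = u.length ∧ pow5 x <:+: w := by
  classical
  have hulen : 0 < u.length := List.length_pos_iff.mpr hu
  -- a cut close to the start
  have hex : ∃ j, F (p ++ (pow5 u ++ s).take j) = 0 := by
    obtain ⟨j, _, hj⟩ := near_cut h
    exact ⟨j, hj⟩
  have hj4 : Nat.find hex ≤ 4 := by
    obtain ⟨j, hj, hj'⟩ := near_cut h
    exact le_trans (Nat.find_min' hex hj') hj
  set j := Nat.find hex with hjdef
  have hj0 : F (p ++ (pow5 u ++ s).take j) = 0 := Nat.find_spec hex
  have hjmin : ∀ i, i < j → F (p ++ (pow5 u ++ s).take i) ≠ 0 := fun i hi => Nat.find_min hex hi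
  have hju : j < u.length := by
    by_contra hcon
    push Not at hcon
    have e1 : (pow5 u ++ s).take j = u ++ ((u ++ (u ++ (u ++ u))) ++ s).take (j - u.length) := by
      have : pow5 u ++ s = u ++ ((u ++ (u ++ (u ++ u))) ++ s) := by simp [pow5]
      rw [this, List.take_append]
      rw [List.take_of_length_le hcon]
    have e2 : ((u ++ (u ++ (u ++ u))) ++ s).take (j - u.length) =
        (pow5 u ++ s).take (j - u.length) := by
      have h1 : ((u ++ (u ++ (u ++ u))) ++ s).take (j - u.length) =
          (u ++ (u ++ (u ++ u))).take (j - u.length) := by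
        rw [List.take_append_of_le_length]
        simp; omega
      have h2 : (pow5 u ++ s).take (j - u.length) = (u ++ (u ++ (u ++ u))).take (j - u.length) := by
        have : pow5 u ++ s = (u ++ (u ++ (u ++ u))) ++ (u ++ s) := by simp [pow5]
        rw [this, List.take_append_of_le_length]
        simp; omega
      rw [h1, h2]
    have e3 := hjmin (j - u.length) (by omega)
    apply e3
    rw [e1, e2] at hj0
    rw [F_append, F_append, hF, zero_add, ← F_append] at hj0
    exact hj0
  have hy : (pow5 u ++ s).take j = u.take j := by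
    have : pow5 u ++ s = u ++ ((u ++ (u ++ (u ++ u))) ++ s) := by simp [pow5]
    rw [this, List.take_append_of_le_length (by omega)]
  set y := u.take j with hydef
  set z := u.drop j with hzdef
  have huyz : u = y ++ z := (List.take_append_drop j u).symm
  have hzne : z ≠ [] := by
    intro hz
    have := congrArg List.length hz
    rw [hzdef, List.length_drop] at this
    simp at this
    omega
  rw [hy] at hj0
  have hylen : y.length = j := by rw [hydef, List.length_take]; omega
  have hFzy : F (z ++ y) = 0 := by rw [F_append, add_comm, ← F_append, ← huyz, hF]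
  have hlenzy : (z ++ y).length = u.length := by
    rw [huyz]; simp [add_comm]
  have e0 : H w = (p ++ y) ++ ((z ++ y) ++ ((z ++ y) ++ ((z ++ y) ++ ((z ++ y) ++ (z ++ s))))) := by
    rw [h, pow5, huyz]; simp
  obtain ⟨w0, w1, a1, a2, a3⟩ := cut e0 hj0
  obtain ⟨x1, w2, b1, b2, b3⟩ := cut a3.symm hFzy
  obtain ⟨x2, w3, c1, c2, c3⟩ := cut b3.symm hFzy
  obtain ⟨x3, w4, d1, d2, d3⟩ := cut c3.symm hFzy
  obtain ⟨x4, w5, f1, f2, f3⟩ := cut d3.symm hFzy
  have g2 : x2 = x1 := H_inj (by rw [← b2, ← c2])
  have g3 : x3 = x1 := H_inj (by rw [← b2, ← d2])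
  have g4 : x4 = x1 := H_inj (by rw [← b2, ← f2])
  have hx1 : x1 ≠ [] := by
    rintro rfl
    rw [H_nil] at b2
    have := congrArg List.length b2
    rw [hlenzy, List.length_nil] at this
    omega
  refine ⟨x1, hx1, by rw [← b2, hlenzy], ?_⟩
  rw [g2] at c1; rw [g3] at d1; rw [g4] at f1
  -- it suffices to find one more copy of `x1` at the start of `w5`, or shift
  by_cases hy0 : y = []
  · have hz' : z = z ++ y := by rw [hy0]; simp
    have hFz : F z = 0 := by rw [hz']; exact hFzy
    obtain ⟨x5, w6, k1, k2, k3⟩ := cut f3.symm hFz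
    have g5 : x5 = x1 := H_inj (by rw [← b2, ← k2]; exact hz')
    rw [g5] at k1
    exact ⟨w0, w6, by rw [a1, b1, c1, d1, f1, k1]; simp [pow5]⟩
  · obtain ⟨x', c, hxc⟩ : ∃ x' c, x1 = x' ++ [c] := by
      rcases List.eq_nil_or_concat x1 with h0 | ⟨x', c, h0⟩
      · exact absurd h0 hx1
      · exact ⟨x', c, by simpa using h0⟩
    have hxx : z ++ y = H x' ++ hc c := by
      rw [b2, hxc, H_append, H_cons, H_nil, List.append_nil]
    rcases List.append_eq_append_iff.mp hxx with ⟨t, ht1, ht2⟩ | ⟨t, ht1, ht2⟩
    · -- H x' = z ++ t, y = t ++ hc c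
      exfalso
      have hFt : F (p ++ t) = 0 := by
        have h1 : F z + F t = 0 := by rw [← F_append, ← ht1, F_H]
        have h2 : F p + F y = 0 := by rw [← F_append, hj0]
        have h3 : F z + F y = 0 := by rw [← F_append, hFzy]
        rw [F_append]
        have : F t = F y := by
          have := h1.trans h3.symm
          exact add_left_cancel this
        rw [this, h2]
      have htl : t.length < j := by
        have := congrArg List.length ht2
        rw [List.length_append, hylen] at this
        have := (hc_len c).1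
        omega
      apply hjmin t.length htl
      have : (pow5 u ++ s).take t.length = t := by
        have hu2 : u = t ++ (hc c ++ z) := by
          rw [← List.append_assoc, ← ht2]; exact huyz
        have h5 : pow5 u ++ s = t ++ ((hc c ++ z) ++ ((u ++ (u ++ (u ++ u))) ++ s)) := by
          have h6 : pow5 u ++ s = u ++ ((u ++ (u ++ (u ++ u))) ++ s) := by simp [pow5]
          calc pow5 u ++ s = u ++ ((u ++ (u ++ (u ++ u))) ++ s) := h6
            _ = (t ++ (hc c ++ z)) ++ ((u ++ (u ++ (u ++ u))) ++ s) := by rw [← hu2]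
            _ = t ++ ((hc c ++ z) ++ ((u ++ (u ++ (u ++ u))) ++ s)) := by rw [List.append_assoc]
        rw [h5, List.take_append_of_le_length le_rfl, List.take_length]
      rw [this]; exact hFt
    · -- z = H x' ++ t, hc c = t ++ y
      by_cases htn : t = []
      · -- then y = hc c, again contradiction with minimality at 0
        exfalso
        rw [htn, List.nil_append] at ht2
        rw [htn, List.append_nil] at ht1
        have hFp : F p = 0 := by
          have h2 : F p + F y = 0 := by rw [← F_append, hj0]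
          rw [← ht2, F_hc, add_zero] at h2
          exact h2
        have hj0' : 0 < j := by
          rw [← hylen]; exact List.length_pos_iff.mpr hy0
        apply hjmin 0 hj0'
        simpa using hFp
      · have f3' : H w5 = H x' ++ (t ++ s) := by rw [← f3, ht1]; simp
        obtain ⟨x'', w6, k1, k2, k3⟩ := cut f3' (F_H x')
        have g5 : x'' = x' := H_inj k2.symm
        rcases w6 with _ | ⟨d, w7⟩
        · rw [H_nil] at k3
          exact absurd (List.append_eq_nil_iff.mp k3).1 htn
        · rw [H_cons] at k3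
          have hd : d = c := head_det htn ht2 k3.symm
          rw [g5, hd] at k1
          refine ⟨w0, w7, ?_⟩
          have : w5 = x1 ++ w7 := by rw [k1, hxc]; simp
          rw [a1, b1, c1, d1, f1, this]; simp [pow5]

/-- Letters that may not follow one another. -/
def ok (x y : Letter) : Prop := ¬ (x = b ∧ y = b)

/-- Words without two consecutive `b`s. -/
def NoBB (w : List Letter) : Prop := ¬ [b, b] <:+: w

lemma noBB_H {w : List Letter} (h : NoBB w) : NoBB (H w) := by
  rintro ⟨p, s, hps⟩
  -- look at the position after `p ++ [b]`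
  have e : H w = (p ++ [b]) ++ ([b] ++ s) := by rw [← hps]; simp
  rcases split_H w (p ++ [b]) ([b] ++ s) e with ⟨w1, w2, e1, e2, e3⟩ |
    ⟨w1, c, w2, v, t, e1, e2, e3, e4, e5, e6⟩
  · -- a cut between two `b`s: both neighbouring letters are `b`
    rcases List.eq_nil_or_concat w1 with h0 | ⟨w1', c, h0⟩
    · rw [h0, H_nil] at e2
      simp at e2
    · rcases w2 with _ | ⟨d, w2'⟩
      · rw [H_nil] at e3; simp at e3
      · rw [h0] at e2
        have e2' : p ++ [b] = H w1' ++ hc c := by rw [e2]; simp [H]
        have hcb : c = b := by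
          cases c with
          | b => rfl
          | a =>
            have : hc a = [a, a, a, b] ++ [a] := rfl
            rw [this, ← List.append_assoc] at e2'
            have := (List.append_inj' e2' rfl).2
            simp at this
        have hdb : d = b := by
          cases d with
          | b => rfl
          | a => rw [H_cons] at e3; simp [hc] at e3
        apply h
        rw [e1, h0, hcb, hdb]
        exact ⟨w1', w2', by simp⟩
  · rcases pref_cases e2 e3 e4 with ⟨_, rfl, rfl⟩ | ⟨_, rfl, rfl⟩ | ⟨_, rfl, rfl⟩ |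
      ⟨_, rfl, rfl⟩ | ⟨_, rfl, rfl⟩ | ⟨_, rfl, rfl⟩
    · simp at e6
    · simp at e6
    · have : p ++ [b] = (H w1 ++ [a, a]) ++ [a] := by rw [e5]; simp
      have := (List.append_inj' this rfl).2
      simp at this
    · simp at e6
    · simp at e6
    · have : p ++ [b] = (H w1 ++ [b]) ++ [a] := by rw [e5]; simp
      have := (List.append_inj' this rfl).2
      simp at this

/-- No image contains `aaaaa`. -/
lemma no_a5 {w p s : List Letter} : H w ≠ p ++ ([a, a, a, a, a] ++ s) := by
  intro e
  have n0 := F_ne_five e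
  have n1 := F_ne_five (p := p ++ [a]) (s := [a, a, a, a] ++ s) (by rw [e]; simp)
  have n2 := F_ne_five (p := p ++ [a, a]) (s := [a, a, a] ++ s) (by rw [e]; simp)
  have n3 := F_ne_five (p := p ++ [a, a, a]) (s := [a, a] ++ s) (by rw [e]; simp)
  have n4 := F_ne_five (p := p ++ [a, a, a, a]) (s := [a] ++ s) (by rw [e]; simp)
  have n5 := F_ne_five (p := p ++ [a, a, a, a, a]) (s := s) (by rw [e]; simp)
  simp only [F_append] at n1 n2 n3 n4 n5
  have h1 : F [a] = 1 := by decide
  have h2 : F [a, a] = 2 := by decide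
  have h3 : F [a, a, a] = 3 := by decide
  have h4 : F [a, a, a, a] = 4 := by decide
  have h5 : F [a, a, a, a, a] = 5 := by decide
  rw [h1] at n1; rw [h2] at n2; rw [h3] at n3; rw [h4] at n4; rw [h5] at n5
  have key : ∀ t : ZMod 7, t ≠ 6 → (t = 5 ∨ t + 1 = 5 ∨ t + 2 = 5 ∨ t + 3 = 5 ∨ t + 4 = 5 ∨
    t + 5 = 5) := by decide
  have h6 : F p = 6 := by
    by_contra hne
    rcases key (F p) hne with h | h | h | h | h | h
    · exact n0 h
    · exact n1 h
    · exact n2 h
    · exact n3 h
    · exact n4 h
    · exact n5 h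
  have hc0 : F (p ++ [a]) = 0 := by rw [F_append, h6, h1]; decide
  obtain ⟨w1, w2, e1, e2, e3⟩ := cut (p := p ++ [a]) (s := [a, a, a, a] ++ s)
    (by rw [e]; simp) hc0
  rcases w2 with _ | ⟨d, w2⟩
  · rw [H_nil] at e3; simp at e3
  · rw [H_cons] at e3
    cases d <;> simp [hc] at e3

/-- The words `H^n(a)`. -/
def W (n : ℕ) : List Letter := H^[n] [a]

lemma W_succ (n : ℕ) : W (n + 1) = H (W n) := Function.iterate_succ_apply' H n [a]

lemma noBB_W (n : ℕ) : NoBB (W n) := by
  induction n with
  | zero =>
    intro h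
    have := h.length_le
    simp [W] at this
  | succ n ih => rw [W_succ]; exact noBB_H ih

/-- The words `H^n(a)` contain no fifth powers. -/
lemma no_pow5_W : ∀ (m : ℕ) (u : List Letter), u.length ≤ m → u ≠ [] → ∀ n : ℕ,
    ¬ pow5 u <:+: W n := by
  intro m
  induction m with
  | zero =>
    intro u hu hne
    exact absurd (List.length_eq_zero_iff.mp (Nat.le_zero.mp hu)) hne
  | succ m ih =>
    intro u hu hne n hn
    rcases n with _ | n
    · have h1 := hn.length_le
      have h2 : 0 < u.length := List.length_pos_iff.mpr hne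
      simp [W, pow5] at h1
      omega
    · obtain ⟨p, s, hps⟩ := hn
      rw [W_succ] at hps
      have e : H (W n) = p ++ (pow5 u ++ s) := by rw [← hps]; simp
      rcases u with _ | ⟨c1, _ | ⟨c2, u⟩⟩
      · exact absurd rfl hne
      · -- one letter
        cases c1 with
        | a => exact no_a5 (w := W n) (p := p) (s := s) (by rw [e]; simp [pow5])
        | b =>
          apply noBB_W (n + 1)
          rw [W_succ]
          exact ⟨p, [b, b, b] ++ s, by rw [e]; simp [pow5]⟩
      · -- at least two letters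
        set U : List Letter := c1 :: c2 :: u with hU
        have hFU : F U = 0 := by
          have m0 := F_ne_five (p := p) (s := pow5 U ++ s) e
          have m1 := F_ne_five (p := p ++ U) (s := U ++ (U ++ (U ++ U)) ++ s)
            (by rw [e]; simp [pow5])
          have m2 := F_ne_five (p := p ++ U ++ U) (s := U ++ (U ++ U) ++ s)
            (by rw [e]; simp [pow5])
          have m3 := F_ne_five (p := p ++ U ++ U ++ U) (s := U ++ U ++ s)
            (by rw [e]; simp [pow5])
          have m4 := F_ne_five (p := p ++ U ++ U ++ U ++ U) (s := U ++ s)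
            (by rw [e]; simp [pow5])
          have m5 := F_ne_five (p := p ++ U ++ U ++ U ++ U ++ U) (s := s)
            (by rw [e]; simp [pow5])
          have k0 := F_ne_five (p := p ++ [c1]) (s := (c2 :: u) ++ (U ++ (U ++ (U ++ U))) ++ s)
            (by rw [e, hU]; simp [pow5])
          have k1 := F_ne_five (p := p ++ U ++ [c1]) (s := (c2 :: u) ++ (U ++ (U ++ U)) ++ s)
            (by rw [e, hU]; simp [pow5])
          have k2 := F_ne_five (p := p ++ U ++ U ++ [c1]) (s := (c2 :: u) ++ (U ++ U) ++ s)
            (by rw [e, hU]; simp [pow5])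
          have k3 := F_ne_five (p := p ++ U ++ U ++ U ++ [c1]) (s := (c2 :: u) ++ U ++ s)
            (by rw [e, hU]; simp [pow5])
          have k4 := F_ne_five (p := p ++ U ++ U ++ U ++ U ++ [c1]) (s := (c2 :: u) ++ s)
            (by rw [e, hU]; simp [pow5])
          have l0 := F_ne_five (p := p ++ [c1, c2]) (s := u ++ (U ++ (U ++ (U ++ U))) ++ s)
            (by rw [e, hU]; simp [pow5])
          have l1 := F_ne_five (p := p ++ U ++ [c1, c2]) (s := u ++ (U ++ (U ++ U)) ++ s)
            (by rw [e, hU]; simp [pow5])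
          have l2 := F_ne_five (p := p ++ U ++ U ++ [c1, c2]) (s := u ++ (U ++ U) ++ s)
            (by rw [e, hU]; simp [pow5])
          have l3 := F_ne_five (p := p ++ U ++ U ++ U ++ [c1, c2]) (s := u ++ U ++ s)
            (by rw [e, hU]; simp [pow5])
          have l4 := F_ne_five (p := p ++ U ++ U ++ U ++ U ++ [c1, c2]) (s := u ++ s)
            (by rw [e, hU]; simp [pow5])
          simp only [F_append] at m1 m2 m3 m4 m5 k0 k1 k2 k3 k4 l0 l1 l2 l3 l4
          have key : ∀ t g : ZMod 7, ∀ x y : Letter, g ≠ 0 →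
              (t = 5 ∨ t + g = 5 ∨ t + g + g = 5 ∨ t + g + g + g = 5 ∨
              t + g + g + g + g = 5 ∨ t + g + g + g + g + g = 5) ∨
              (t + F [x] = 5 ∨ t + g + F [x] = 5 ∨ t + g + g + F [x] = 5 ∨
              t + g + g + g + F [x] = 5 ∨ t + g + g + g + g + F [x] = 5) ∨
              (t + F [x, y] = 5 ∨ t + g + F [x, y] = 5 ∨ t + g + g + F [x, y] = 5 ∨
              t + g + g + g + F [x, y] = 5 ∨ t + g + g + g + g + F [x, y] = 5) := by
            intro t g x y
            revert t g
            cases x <;> cases y <;> decide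
          by_contra hne0
          rcases key (F p) (F U) c1 c2 hne0 with (h | h | h | h | h | h) | (h | h | h | h | h) |
            (h | h | h | h | h)
          · exact m0 h
          · exact m1 h
          · exact m2 h
          · exact m3 h
          · exact m4 h
          · exact m5 h
          · exact k0 h
          · exact k1 h
          · exact k2 h
          · exact k3 h
          · exact k4 h
          · exact l0 h
          · exact l1 h
          · exact l2 h
          · exact l3 h
          · exact l4 h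
        obtain ⟨x, hx1, hx2, hx3⟩ := pull5 e hne hFU
        have hxl : x.length ≤ m := by
          have h1 := H_len x
          have h2 : 0 < x.length := List.length_pos_iff.mpr hx1
          omega
        exact ih x hxl hx1 n hx3

/-! ### The infinite word -/

lemma W_prefix_succ (n : ℕ) : W n <+: W (n + 1) := by
  induction n with
  | zero => exact ⟨[a, a, b, a], by decide⟩
  | succ n ih =>
    obtain ⟨t, ht⟩ := ih
    refine ⟨H t, ?_⟩
    rw [W_succ (n + 1), ← ht, H_append, ht, W_succ n]

lemma W_prefix {m n : ℕ} (h : m ≤ n) : W m <+: W n := by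
  induction n, h using Nat.le_induction with
  | base => exact List.prefix_refl _
  | succ n _ ih => exact ih.trans (W_prefix_succ n)

lemma W_len (n : ℕ) : n < (W n).length := by
  induction n with
  | zero => simp [W]
  | succ n ih =>
    rw [W_succ]
    have := H_len (W n)
    omega

/-- The fixed point of `H` starting with `a`. -/
def fp (i : ℕ) : Letter := (W i)[i]'(W_len i)

lemma getElem_eq {m n i : ℕ} (hm : i < (W m).length) (hn : i < (W n).length) :
    (W m)[i] = (W n)[i] := by
  rcases le_total m n with h | h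
  · exact (W_prefix h).getElem hm
  · exact ((W_prefix h).getElem hn).symm

lemma W_occurs (n : ℕ) : OccursAt (W n) fp 0 := by
  intro j hj
  rw [Nat.zero_add]
  exact getElem_eq hj (W_len j)

lemma infix_of_factor {v : List Letter} (h : IsFactor v fp) : ∃ n, v <:+: W n := by
  obtain ⟨i, hi⟩ := h
  refine ⟨i + v.length, (W (i + v.length)).take i,
    (W (i + v.length)).drop (i + v.length), ?_⟩
  have hlen := W_len (i + v.length)
  have hv : v = ((W (i + v.length)).drop i).take v.length := by
    apply List.ext_getElem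
    · rw [List.length_take, List.length_drop]; omega
    · intro j h1 h2
      rw [List.getElem_take, List.getElem_drop, hi j h1]
      exact getElem_eq _ _
  have h1 : (W (i + v.length)).drop (i + v.length) =
      ((W (i + v.length)).drop i).drop v.length := by rw [List.drop_drop]
  have h2 : (W (i + v.length)).take i ++ ((W (i + v.length)).drop i).take v.length ++
      ((W (i + v.length)).drop i).drop v.length = W (i + v.length) := by
    rw [List.append_assoc, List.take_append_drop, List.take_append_drop]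
  rw [← hv, ← h1] at h2
  exact h2

/-- **MP_8f8c07, Q1: yes.** There is a morphism on the two-letter alphabet that is abelian
`k`-power free for some `k ≥ 2`, has a fixed point starting with `a`, and whose fixed point is
`5`-power free and contains no factor `bb`. -/
theorem result : ∃ (h : List Letter → List Letter) (w : ℕ → Letter),
    IsMorphism h ∧ (∃ k : ℕ, 2 ≤ k ∧ AbelianPowerFreeMorphism k h) ∧
    IsFixedPointFromA h w ∧
    (∀ x : List Letter, x ≠ [] → ¬ IsFactor (x ++ x ++ x ++ x ++ x) w) ∧
    ¬ IsFactor [b, b] w := by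
  refine ⟨H, fp, H_append, ⟨6, by norm_num, H_free⟩, ⟨⟨[a, a, b, a], by simp, rfl⟩, ?_, ?_⟩,
    ?_, ?_⟩
  · exact tendsto_atTop_mono (fun n => (W_len n).le) tendsto_id
  · exact W_occurs
  · intro x hx hf
    obtain ⟨n, hn⟩ := infix_of_factor hf
    exact no_pow5_W x.length x le_rfl hx n (by simpa [pow5] using hn)
  · intro hf
    obtain ⟨n, hn⟩ := infix_of_factor hf
    exact noBB_W n hn

end Pool.Agent.Results.MP_8f8c07_co.ExistsMorphism
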